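import Pool.Agent.Helper84.XL.B
import Pool.Agent.Helper55.U2.BC

/-!
Near cells with twin states and tests of type B (MP_c75db0): classes whose orders are known (exact,
also orders at least ten with thin weights) or tails, mixed.
-/

set_option autoImplicit false
set_option exponentiation.threshold 4000
noncomputable section
namespace Pool.Agent.Helper55.XL

open Pool.Agent.Helper81.MIT
open Pool.Agent.Helper86.CX (Hm P9 VR ev Cx andB)
open Pool.Agent.Helper86.CT (LT2 Mo Mc Mq Sv Vx Cls Prog CellT Rw chkDT mk addM uM zM Alg mkCls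
  clsOK)
open Pool.Agent.Helper90.C75 (Vt)
open Pool.Agent.Helper86.C75 (Z)
open Pool.Agent.Helper90.KMO (zv)
open Pool.Agent.Helper90.KMT (PT TOK KTab CLT)
open Pool.Agent.Helper6.MONO (V3 mm RMb zw LNI_mm kk Kp xA fB Thr sD)
open Pool.Agent.Helper21.SUP (GS DG gM)
open Pool.Agent.Helper21.SUP renaming nx → nxs
open Pool.Agent.Helper39.NCL (WN wS NA)
open Pool.Agent.Helper39.NFT (Ch CBT modXE cX)
open Pool.Agent.Helper39.SLT (T4 ML)
open Pool.Agent.Helper6.PRG (gsF giS gsF_giS)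
open Pool.Agent.Helper21.KRN (TProg PtR XM expand xOK cκ KResT)
open Pool.Agent.Helper21.KTE (MZ KS wfK CLD chkDT_pt sideT TOK_xC)
open Pool.Agent.Helper48.NCT (IT FTT NDT ON)
open Pool.Agent.Helper57.KNB (FDT FamTOK NBT NAB BXT BXOK chkPNB sideLB)
open Pool.Agent.Helper57.U2 (TCellU HXU hxU_of kb)
open Pool.Agent.Helper84.XL
open Pool.Agent.Helper55.U2
open Complex ComplexConjugate

variable {p q r : ℕ} {A B C : Od} {RL : List (List (ℕ × ℕ))} {BE BO : List ℕ} {G : TProg}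
  {kf kr : ℕ → T4 → ℕ} {il : List IT} {run : GS → ℕ → ℕ → ℕ → Bool}

/-- the order is at least four -/
def f4 : Od → Bool
  | Od.kn N => Nat.ble 4 N
  | Od.ta => true

theorem f4_ok {O : Od} {M : ℕ} (h : O.has M) (h4 : f4 O = true) : 4 ≤ M := by
  cases O with
  | kn N =>
    have h1 := h.1
    rw [h1]
    exact Nat.le_of_ble_eq_true h4
  | ta => exact le_trans (by norm_num) (h : 10 ≤ M)

/-- a single run of two letters after a first run -/
def covHO (kf kr : ℕ → T4 → ℕ) (run : GS → ℕ → ℕ → ℕ → Bool) (s : GS) : Bool :=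
  run s 2 (kr (giS (nxs s 2)) T4.two) (kf (giS s) T4.two)

/-- THE RUNS OF TWO LETTERS BY TESTS OF TYPE B, orders at least four -/
def covBO (kf kr : ℕ → T4 → ℕ) (A B C : Od) (run : GS → ℕ → ℕ → ℕ → Bool) : Bool :=
  (f4 A && (f4 B && f4 C)) &&
  (((List.range 6).all fun i => cov1O 2 T4.two kf kr A B C run i
    (kf (giS (nxs (gsF i) 2)) T4.two)) &&
  (covHO kf kr run (1, 2, 0) && (covHO kf kr run (2, 1, 0) &&
    (covHO kf kr run (2, 0, 1) && covHO kf kr run (1, 0, 2)))))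

/-- THE RUNS OF TWO LETTERS -/
theorem hxO_of_B (oa : A.has p) (ob : B.has q) (oc : C.has r) {z : ℂ} {K : ℕ → Hm ℝ}
    (hR : RunO p q r z K run) (h : covBO kf kr A B C run = true)
    (hB : BIn p q r z K (idxB kf kr) → BOut p q r z K (idxB kf kr)) :
    HXU p q r (zw z) (KO kf kr A B C K) 2 T4.two := by
  unfold covBO at h
  simp only [Bool.and_eq_true, List.all_eq_true] at h
  obtain ⟨⟨a4, b4, c4⟩, h1, m6, m7, m8, m9⟩ := h
  have hp4 := f4_ok oa a4
  have hq4 := f4_ok ob b4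
  have hr4 := f4_ok oc c4
  have h3m : ∀ s, DG s → 3 ≤ mm p q r s.1 s.2.1 :=
    fun s h => LNI_mm (by omega) (by omega) (by omega) _ _ h.1
  have hR' : ∀ {s : GS}, DG s → ∀ {k k' : ℕ}, run s 2 k k' = true → ∀ v : Fin 3 → ℂ,
      0 < ev (K k') v → 0 < ev (K k) ((RMb p q r s 2 (zw z)).mulVec v) :=
    fun {s} h {k k'} hb v hv => hR h le_rfl (by have := h3m s h; omega) hb v hv
  have hin : BIn p q r z K (idxB kf kr) := by
    have key : ∀ s, DG s → covHO kf kr run s = true → ∀ T : T4,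
        T ≠ T4.two → ∀ v, 0 < ev (K (idxB kf kr s T)) v →
          0 < ev (K (idxB kf kr (nxs s 2) T4.two)) ((RMb p q r s 2 (zw z)).mulVec v) := by
      intro s hs hc T hT v hv
      rw [idxB_ne kf kr s hT] at hv
      rw [idxB_two]
      exact hR' hs hc v hv
    rintro s (rfl | rfl | rfl | rfl) T _ _ hT2 v hv
    · exact key _ ⟨by decide, by decide, by decide⟩ m6 T hT2 v hv
    · exact key _ ⟨by decide, by decide, by decide⟩ m7 T hT2 v hv
    · exact key _ ⟨by decide, by decide, by decide⟩ m8 T hT2 v hv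
    · exact key _ ⟨by decide, by decide, by decide⟩ m9 T hT2 v hv
  have hout := hB hin
  refine hxU_of ?_ ?_
  · intro s hs T i hT hi hl hT2 v hv
    have h2 := h1 (giS s) (List.mem_range.2 (gsF_giS s hs).2)
    rw [(gsF_giS s hs).1] at h2
    rw [KO_two]
    exact hR' hs (fst_ofO (Or.inl rfl) oa ob oc hs h2 hT hi hl hT2) v hv
  · intro s hs k v hv
    have h4 := ML_four hp4 hq4 hr4 hs
    have hl : T4.three.low (ML p q r s) ≤ 2 := by
      show (if ML p q r s = 3 then 3 else 2) ≤ 2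
      rw [if_neg (by omega)]
    rw [KO_two] at hv ⊢
    have h5 := hout s hs T4.three trivial hl (by decide) k v (by
      rw [idxB_ne kf kr s (by decide)]
      exact hv)
    rw [idxB_two] at h5
    exact h5

/-- walls (families or single runs), tests of type B -/
def modOB (kf kr : ℕ → T4 → ℕ) (A B C : Od) (a b c : Lb) (W0 W1 W2 : WN)
    (RL : List (List (ℕ × ℕ))) (BE BO : List ℕ) (G : TProg) (il : List IT) (sl : List ℕ)
    (le : List LT2) : Bool :=
  modO0 kf kr A B C a b c RL BE BO G sl le &&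
    (wallO kf kr A B C W0 W1 W2 (rnO A B C RL BE BO G) il &&
      covBO kf kr A B C (rnO A B C RL BE BO G))

/-- a chain for the runs of three letters, tests of type B -/
def modOCB (kf kr : ℕ → T4 → ℕ) (A B C : Od) (a b c : Lb) (cA : Ch)
    (RL : List (List (ℕ × ℕ))) (BE BO : List ℕ) (G : TProg) (il : List IT) (sl : List ℕ)
    (le : List LT2) : Bool :=
  modO0 kf kr A B C a b c RL BE BO G sl le &&
    (chnO 3 T4.three kf kr A B C cA (rnO A B C RL BE BO G) il &&
      covBO kf kr A B C (rnO A B C RL BE BO G))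

section

variable {sl : List ℕ} {le : List LT2} {a b c : Lb} {W0 W1 W2 : WN}

/-- walls, tests of type B -/
theorem hcert_OB (oa : A.has p) (ob : B.has q) (oc : C.has r) (ha : a.has p) (hb : b.has q)
    (hc : c.has r) (hRL : RTO A B C p q r RL)
    (hm : modOB kf kr A B C a b c W0 W1 W2 RL BE BO G il sl le = true) :
    HCert p q r (idxB kf kr) W0 W1 W2 G il sl le := by
  intro z hz hz1 K hP hI hfam hB
  unfold modOB at hm
  simp only [Bool.and_eq_true] at hm
  obtain ⟨h0, hW, hC⟩ := hm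
  have hR : RunO p q r z K (rnO A B C RL BE BO G) :=
    run_ofO oa ob oc (modO0_br h0) hRL hz hz1 hP.res
  exact ⟨_, tcertO_pt oa ob oc ha hb hc hRL hz hz1 hP h0
    (hxO_of_wall oa ob oc hR (wallO_all hW) hI hfam) (hxO_of_B oa ob oc hR hC hB)⟩

/-- a chain, tests of type B -/
theorem hcert_OCB (oa : A.has p) (ob : B.has q) (oc : C.has r) (ha : a.has p) (hb : b.has q)
    (hc : c.has r) (hRL : RTO A B C p q r RL) {cA : Ch}
    (hm : modOCB kf kr A B C a b c cA RL BE BO G il sl le = true) :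
    HCert p q r (idxB kf kr) W0 W1 W2 G il sl le := by
  intro z hz hz1 K hP hI _ hB
  unfold modOCB at hm
  simp only [Bool.and_eq_true] at hm
  obtain ⟨h0, hA, hC⟩ := hm
  have hR : RunO p q r z K (rnO A B C RL BE BO G) :=
    run_ofO oa ob oc (modO0_br h0) hRL hz hz1 hP.res
  exact ⟨_, tcertO_pt oa ob oc ha hb hc hRL hz hz1 hP h0
    (hxO_of_ch (Or.inr rfl) (by norm_num) le_rfl oa ob oc hR (chnO_all hA) hI)
    (hxO_of_B oa ob oc hR hC hB)⟩

end

section

variable {α β P v γ : Type} {D : ℕ} {lC : α → Vt (D + 1) → Cx} {lf : α → Vt (D + 1) → ℂ}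
  {mf : (ℕ → ℝ) → β → (ℕ → ℝ) → ℝ} {lp : P → Vt (D + 1) → P9} {lv : v → Vt (D + 1) → VR}
  {lg : γ → Vt (D + 1) → ℕ} {Sa : α → List Bool → Prop} {Sp : P → List Bool → Prop}
  {Sv' : v → List Bool → Prop} {Sg : γ → List Bool → Prop} {M : Mc α β P v γ}
  {S : Sv P} {W : Vx β} {Y : ℕ → ℕ → α} {qd : ℕ → Cx → Cx → Cx → α} {rt : α → Bool}

/-- any line at a threshold with `fB = 0` given by a model, tests of type B, twin states -/
theorem nearU_TBG {X : XM α v}
    (hZ : MZ D lC lf mf lp lv lg Sa Sp Sv' Sg M X.Q X.c X.r S W Y qd rt) {ONE : β}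
    (h1 : ON mf ONE) {F : FTT α β (FDT β)} (hF : FamTOK (D + 1) lf mf F) {FB : BXT α β}
    (hFB : BXOK (D + 1) lf mf FB) {a b c : Lb} (ha : a.has p) (hb : b.has q) (hc : c.has r)
    {s0 s1 s2 : KS} {Xo : Mo α} {x0 : ℝ} (hC : CLD D lf M qd rt X Xo s0 s1 s2 (kR p q r) x0)
    (hT : Thr p q r x0) (tB : fB p q r x0 = 0) {W0 W1 W2 : WN} {G : TProg} {il : List IT}
    {sl : List ℕ} {le : List LT2} (hm : HCert p q r (idxB kf kr) W0 W1 W2 G il sl le)
    {f0 f1 f2 : Bool} (g0 : f0 = W0.f) (g1 : f1 = W1.f) (g2 : f2 = W2.f)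
    {l : List (NBT α β (FDT β))} (hl : l ≠ []) {As : List NAB}
    (hs : sideLB (sideNBU kf kr a b c W0 W1 W2 (sideT W le)) l As = true) {y e : ℕ}
    (H : chkPNB M S W Y F FB f0 f1 f2 X.k0 X.k1 X.k2 (mkCls M.A X.k0 X.k1 X.k2) (expand X G)
      Xo sl le ONE il e l y = true) :
    TCellU p q r x0 ((y : ℝ) / 2 ^ 48) ((e : ℝ) / 2 ^ 48) :=
  nearT_BG hZ h1 hF hFB ha hb hc hC hT.gt hT.le hT.A1 hT.A2 hT.A3 tB hm g0 g1 g2 hl hs H

end

end Pool.Agent.Helper55.XL
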